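import Pool.Agent.K.MP_2ab770_pr.C0

set_option autoImplicit false

open Filter Topology

namespace Pool.Agent.Results.MP_2ab770_pr.TrailsFive

theorem result : ∀ d : ℕ, 5 ≤ d →
    ∃ lam G : ℝ, 0 < lam ∧ 0 < G ∧
      Tendsto (fun n : ℕ =>
        ((Set.ncard {ω : Fin (n + 1) → (Fin d → ℤ) |
            ω 0 = 0 ∧
            (∀ i : Fin n, ∑ k : Fin d, |ω i.succ k - ω i.castSucc k| = 1) ∧
            Function.Injective (fun i : Fin n => s(ω i.castSucc, ω i.succ))} : ℕ) : ℝ) /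
          lam ^ n) atTop (𝓝 G) :=
  Pool.Agent.P.MP_2ab770_pr.main5

end Pool.Agent.Results.MP_2ab770_pr.TrailsFive
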